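import Pool.Agent.Q35.TT.Stm3
import Pool.Agent.Q237.TT.GLO

/-!
# Project TT (helper35), job GLN: the inequalities at all places of a number field
-/

set_option autoImplicit false

open Pool.Agent.Y720.MZ MvPolynomial Height AdmissibleAbsValues Pool.Agent.Q35.TT

namespace Pool.Agent.Q190.TT.Gln

section

variable {K : Type} [Field K] {n : ℕ}

theorem mo_af (m : Fin n →₀ ℕ) (z : Fin n → K) (i : Fin n) :
    mo m (af z) i = ∏ j ∈ Finset.univ.erase i, z j ^ m j := by
  unfold mo af
  refine Finset.prod_congr rfl fun j _ => ?_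
  simp only [Matrix.cons_val_zero, Matrix.cons_val_one, one_pow, one_mul]

theorem bq_lc (f : MvPolynomial (Fin n) K) (hf : ∀ j, f.degreeOf j ≤ 4) (z : Fin n → K)
    (i : Fin n) : bq (lc f (af z) i) ![1, z i] = eval z f := by
  have h1 : bq (lc f (af z) i) ![1, z i] = ∑ k : Fin 5, lc f (af z) i k * z i ^ (k : ℕ) := by
    rw [Pool.Agent.Q237.TT.bq_one, Fin.sum_univ_five]
    simp
  have h2 : ∑ k : Fin 5, lc f (af z) i k * z i ^ (k : ℕ) =
      ∑ k ∈ Finset.range 5, ∑ m ∈ f.support with m i = k,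
        f.coeff m * ∏ j, z j ^ m j := by
    rw [Finset.sum_range]
    refine Finset.sum_congr rfl fun k _ => ?_
    unfold lc
    rw [Finset.sum_mul]
    refine Finset.sum_congr rfl fun m hm => ?_
    rw [Finset.mem_filter] at hm
    rw [mo_af, ← Finset.mul_prod_erase Finset.univ _ (Finset.mem_univ i), hm.2]
    ring
  rw [h1, h2, eval_eq', Finset.sum_fiberwise_of_maps_to]
  intro m hm
  rw [Finset.mem_range]
  have := (monomial_le_degreeOf i hm).trans (hf i)
  omega

theorem v_mo (v : AbsoluteValue K ℝ) (m : Fin n →₀ ℕ) (hm : ∀ j, m j ≤ 4) (z : Fin n → K)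
    (i : Fin n) : v (mo m (af z) i) ≤ ∏ j ∈ Finset.univ.erase i, max 1 (v (z j)) ^ 4 := by
  rw [mo_af, map_prod]
  refine Finset.prod_le_prod (fun j _ => v.nonneg _) fun j _ => ?_
  have := Pool.Agent.Q237.TT.term_le v 1 (z j) (m j) (hm j)
  rw [one_mul, map_one, one_mul] at this
  exact this

/-- the sum of the absolute values of the coefficients -/
noncomputable def sc (v : AbsoluteValue K ℝ) (f : MvPolynomial (Fin n) K) : ℝ :=
  1 + ∑ m ∈ f.support, v (f.coeff m)

theorem sc_one (v : AbsoluteValue K ℝ) (f : MvPolynomial (Fin n) K) : 1 ≤ sc v f := by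
  unfold sc
  have : 0 ≤ ∑ m ∈ f.support, v (f.coeff m) := Finset.sum_nonneg fun m _ => v.nonneg _
  linarith

theorem P_nonneg (v : AbsoluteValue K ℝ) (z : Fin n → K) (i : Fin n) :
    0 ≤ ∏ j ∈ Finset.univ.erase i, max 1 (v (z j)) ^ 4 :=
  Finset.prod_nonneg fun j _ => by positivity

theorem lc_le (v : AbsoluteValue K ℝ) (f : MvPolynomial (Fin n) K) (hf : ∀ j, f.degreeOf j ≤ 4)
    (z : Fin n → K) (i : Fin n) (k : Fin 5) :
    v (lc f (af z) i k) ≤ sc v f * ∏ j ∈ Finset.univ.erase i, max 1 (v (z j)) ^ 4 := by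
  have hP := P_nonneg v z i
  unfold lc
  have h1 : v (∑ m ∈ f.support with m i = (k : ℕ), f.coeff m * mo m (af z) i) ≤
      ∑ m ∈ f.support with m i = (k : ℕ), v (f.coeff m * mo m (af z) i) :=
    v.sum_le _ _
  refine h1.trans ?_
  have h2 : ∑ m ∈ f.support with m i = (k : ℕ), v (f.coeff m * mo m (af z) i) ≤
      ∑ m ∈ f.support with m i = (k : ℕ),
        v (f.coeff m) * ∏ j ∈ Finset.univ.erase i, max 1 (v (z j)) ^ 4 := by
    refine Finset.sum_le_sum fun m hm => ?_
    rw [map_mul]
    exact mul_le_mul_of_nonneg_left (v_mo v m (fun j => (monomial_le_degreeOf j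
      (Finset.mem_filter.1 hm).1).trans (hf j)) z i) (v.nonneg _)
  refine h2.trans ?_
  rw [← Finset.sum_mul]
  refine mul_le_mul_of_nonneg_right ?_ hP
  have h3 : ∑ m ∈ f.support with m i = (k : ℕ), v (f.coeff m) ≤ ∑ m ∈ f.support, v (f.coeff m) :=
    Finset.sum_le_sum_of_subset_of_nonneg (Finset.filter_subset _ _) fun m _ _ => v.nonneg _
  unfold sc
  linarith

theorem lc_le_na {v : AbsoluteValue K ℝ} (hv : IsNonarchimedean v) (f : MvPolynomial (Fin n) K)
    (hf : ∀ j, f.degreeOf j ≤ 4) (h1 : ∀ m, v (f.coeff m) ≤ 1)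
    (z : Fin n → K) (i : Fin n) (k : Fin 5) :
    v (lc f (af z) i k) ≤ ∏ j ∈ Finset.univ.erase i, max 1 (v (z j)) ^ 4 := by
  have hP := P_nonneg v z i
  have key : ∀ s : Finset (Fin n →₀ ℕ), (∀ m ∈ s, m ∈ f.support) →
      v (∑ m ∈ s, f.coeff m * mo m (af z) i) ≤
        ∏ j ∈ Finset.univ.erase i, max 1 (v (z j)) ^ 4 := by
    classical
    intro s
    induction s using Finset.induction_on with
    | empty =>
      intro _
      rw [Finset.sum_empty, map_zero]
      exact hP
    | insert m s hms ih =>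
      intro hs
      rw [Finset.sum_insert hms]
      refine (hv _ _).trans (max_le ?_ (ih fun m' hm' => hs m' (Finset.mem_insert_of_mem hm')))
      rw [map_mul]
      have h2 := v_mo v m (fun j => (monomial_le_degreeOf j
        (hs m (Finset.mem_insert_self _ _))).trans (hf j)) z i
      calc v (f.coeff m) * v (mo m (af z) i) ≤ 1 * v (mo m (af z) i) :=
            mul_le_mul_of_nonneg_right (h1 m) (v.nonneg _)
        _ ≤ _ := by rw [one_mul]; exact h2
  exact key _ fun m hm => (Finset.mem_filter.1 hm).1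

/-- the scaling -/
theorem exists_m (v : AbsoluteValue K ℝ) (z : Fin n → K) (i : Fin n) :
    ∃ m : K, m ≠ 0 ∧ v m ^ 4 = ∏ j ∈ Finset.univ.erase i, max 1 (v (z j)) ^ 4 := by
  choose m hm0 hm using fun j => Pool.Agent.Q237.TT.exists_m v (z j)
  refine ⟨∏ j ∈ Finset.univ.erase i, m j, Finset.prod_ne_zero_iff.2 fun j _ => hm0 j, ?_⟩
  rw [map_prod, ← Finset.prod_pow]
  exact Finset.prod_congr rfl fun j _ => by rw [hm j]

end

/-- **GLN**: the inequalities at all places of a number field. -/
theorem gln (h1 : S_ART) (h2 : S_NAT) (h3 : S_GLT) (h4 : S_PLA) (h5 : S_LOT) (h6 : S_LGT) :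
    S_GLN := by
  intro K _ _ n f hf
  obtain ⟨p1, p2, p3⟩ := h4 K
  have key : ∀ v : AbsoluteValue K ℝ, ∃ C : ℝ, 1 ≤ C ∧
      (v ∈ nonarchAbsVal (K := K) → (∃ p, Gd v p) → (∀ m, v (f.coeff m) ≤ 1) → C = 1) ∧
      ∀ (z : Fin n → K) (i : Fin n) (N : ℕ), N ≠ 0 → TorT (lc f (af z) i) (z i) N → ∀ k,
        (v ∈ archAbsVal (K := K) → v (bd (lc f (af z) i) (af z i) k) ^ 2 ≤
          C * (N : ℝ) ^ 4 * v (eval z f) * max 1 (v (z i)) ^ 2 *
            ∏ j ∈ Finset.univ.erase i, max 1 (v (z j)) ^ 4) ∧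
        (v ∈ nonarchAbsVal (K := K) → v (bd (lc f (af z) i) (af z i) k) ^ 2 ≤
          C * v (eval z f) * max 1 (v (z i)) ^ 2 *
            ∏ j ∈ Finset.univ.erase i, max 1 (v (z j)) ^ 4) := by
    intro v
    have hA := sc_one v f
    by_cases hna : v ∈ nonarchAbsVal (K := K)
    · have hv := isNonarchimedean v hna
      have hnat : ∀ n : ℕ, v (n : K) ≤ 1 := fun n => hv.apply_natCast_le_one
      have harch : v ∉ archAbsVal (K := K) := by
        intro h
        have e1 := p1 v h 2
        have e2 := hnat 2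
        rw [e1] at e2
        norm_num at e2
      by_cases hg : (∃ p, Gd v p) ∧ ∀ m, v (f.coeff m) ≤ 1
      · obtain ⟨⟨p, hp⟩, hc⟩ := hg
        refine ⟨1, le_rfl, fun _ _ _ => rfl, ?_⟩
        intro z i N hN hT k
        refine ⟨fun h => absurd h harch, fun _ => ?_⟩
        obtain ⟨m, hm0, hm⟩ := exists_m v z i
        have e2 : v (2 : K) = 1 := by
          have := hp.unit 2 (by norm_num) (by have := hp.p5; omega)
          exact_mod_cast this
        have e3 : v (3 : K) = 1 := by
          have := hp.unit 3 (by norm_num) (by have := hp.p5; omega)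
          exact_mod_cast this
        have := h6 K v hv e2 e3 (h3 K v p hp) (lc f (af z) i) m hm0
          (fun k => by rw [hm]; exact lc_le_na hv f hf hc z i k) (z i) N hN hT k
        rw [hm, bq_lc f hf] at this
        rw [one_mul]
        exact this
      · have e30 : (3 : K) ≠ 0 := by norm_num
        have hv3 : 0 < v (3 : K) := v.pos e30
        have hv3' : v (3 : K) ≤ 1 := by exact_mod_cast hnat 3
        have hv2' : v (2 : K) ≤ 1 := by exact_mod_cast hnat 2
        set A := sc v f with hAdef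
        set A' : ℝ := (16 * A ^ 2 + 137 * A ^ 3) / v 3 ^ 3 with hA'
        have hA2 : (1 : ℝ) ≤ A ^ 2 := one_le_pow₀ hA
        have hA3 : (1 : ℝ) ≤ A ^ 3 := one_le_pow₀ hA
        have hv33 : 0 < v (3 : K) ^ 3 := by positivity
        have hA'1 : 1 ≤ A' := by
          rw [hA', le_div_iff₀ hv33]
          have : v (3 : K) ^ 3 ≤ 1 := pow_le_one₀ hv3.le hv3'
          linarith
        obtain ⟨B, hB, hLB⟩ := h2 K v hv (p2 v hna) A' hA'1
        have hq1 : 16 * A ^ 2 ≤ A' * v 3 := by
          rw [hA', div_mul_eq_mul_div, le_div_iff₀ hv33]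
          have : v (3 : K) ^ 3 ≤ v 3 := by
            calc v (3 : K) ^ 3 ≤ v 3 ^ 1 := pow_le_pow_of_le_one hv3.le hv3' (by norm_num)
              _ = v 3 := pow_one _
          nlinarith
        have hq2 : 137 * A ^ 3 ≤ A' * v 3 ^ 3 := by
          rw [hA', div_mul_cancel₀ _ hv33.ne']
          linarith
        refine ⟨(144 * A + 12 * B) / v 3, ?_, fun _ hg1 hg2 => absurd ⟨hg1, hg2⟩ hg, ?_⟩
        · rw [le_div_iff₀ hv3]
          linarith
        intro z i N hN hT k
        refine ⟨fun h => absurd h harch, fun _ => ?_⟩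
        obtain ⟨m, hm0, hm⟩ := exists_m v z i
        have := h5 K v A A' B 0 hA hB (by linarith) hq1 hq2 (by linarith) (by linarith) hLB
          (lc f (af z) i) m hm0 (fun k => by rw [hm]; exact lc_le v f hf z i k) (z i) N hN hT k
        rw [hm, pow_zero, mul_one, bq_lc f hf] at this
        have e : (144 * A + 12 * B) / v 3 * v (eval z f) * max 1 (v (z i)) ^ 2 *
            ∏ j ∈ Finset.univ.erase i, max 1 (v (z j)) ^ 4 =
              ((144 * A + 12 * B) * v (eval z f) *
              max 1 (v (z i)) ^ 2 * ∏ j ∈ Finset.univ.erase i, max 1 (v (z j)) ^ 4) / v 3 := by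
          ring
        rw [e, le_div_iff₀ hv3, mul_comm]
        exact this
    · by_cases har : v ∈ archAbsVal (K := K)
      · have hn := p1 v har
        have e3 : v (3 : K) = 3 := by exact_mod_cast hn 3
        have e2 : v (2 : K) = 2 := by exact_mod_cast hn 2
        set A := sc v f with hAdef
        have hA2 : (1 : ℝ) ≤ A ^ 2 := one_le_pow₀ hA
        have hA3 : (1 : ℝ) ≤ A ^ 3 := one_le_pow₀ hA
        obtain ⟨B, hB, hLB⟩ := h1 K (16 * A ^ 2 + 137 * A ^ 3) (by linarith)
        refine ⟨144 * A + 12 * B, by linarith, fun h => absurd h hna, ?_⟩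
        intro z i N hN hT k
        refine ⟨fun _ => ?_, fun h => absurd h hna⟩
        obtain ⟨m, hm0, hm⟩ := exists_m v z i
        have := h5 K v A (16 * A ^ 2 + 137 * A ^ 3) B 4 hA hB (by linarith)
          (by rw [e3]; linarith) (by rw [e3]; linarith) e2.le e3.le (hLB v har)
          (lc f (af z) i) m hm0 (fun k => by rw [hm]; exact lc_le v f hf z i k) (z i) N hN hT k
        rw [hm, e3, bq_lc f hf] at this
        have hsq : 0 ≤ v (bd (lc f (af z) i) (af z i) k) ^ 2 := by positivity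
        have hsq2 : v (bd (lc f (af z) i) (af z i) k) = v (bd (lc f (af z) i) ![1, z i] k) := rfl
        rw [hsq2] at hsq ⊢
        linarith
      · exact ⟨1, le_rfl, fun h => absurd h hna,
          fun z i N _ _ k => ⟨fun h => absurd h har, fun h => absurd h hna⟩⟩
  choose C hC1 hC2 hC3 using key
  refine ⟨C, hC1, ?_, ?_⟩
  · have hfin : ∀ m, {v : AbsoluteValue K ℝ | v ∈ nonarchAbsVal (K := K) ∧
        ¬ v (f.coeff m) ≤ 1}.Finite := by
      intro m
      rcases eq_or_ne (f.coeff m) 0 with h | h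
      · rw [h]
        simp
      · have h7 := hasFiniteMulSupport h
        refine (h7.image (fun v : nonarchAbsVal (K := K) => v.val)).subset ?_
        rintro v ⟨hv, hv'⟩
        refine ⟨⟨v, hv⟩, ?_, rfl⟩
        intro h8
        exact hv' (le_of_eq h8)
    have hfin2 : (⋃ m ∈ f.support, {v : AbsoluteValue K ℝ | v ∈ nonarchAbsVal (K := K) ∧
        ¬ v (f.coeff m) ≤ 1}).Finite :=
      f.support.finite_toSet.biUnion fun m _ => hfin m
    refine (p3.union hfin2).subset ?_
    rintro v ⟨hv, hv'⟩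
    by_cases hg : ∃ p, Gd v p
    · right
      by_contra hcon
      apply hv'
      apply hC2 v hv hg
      intro m
      by_contra hm
      apply hcon
      refine Set.mem_iUnion₂.2 ⟨m, ?_, hv, hm⟩
      rw [mem_support_iff]
      intro h0
      rw [h0, map_zero] at hm
      exact hm zero_le_one
    · left
      exact ⟨hv, hg⟩
  · intro z i N hN hT k
    exact ⟨fun v hv => (hC3 v z i N hN hT k).1 hv, fun v hv => (hC3 v z i N hN hT k).2 hv⟩

end Pool.Agent.Q190.TT.Gln
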