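import Pool.Agent.Q35.TT.Stm3
import Pool.Agent.Q224.TT.Loc

/-!
# Project TT (helper35), jobs TWS and INV: the condition on other quadratic twists
-/

set_option autoImplicit false

open Pool.Agent.Y720.MZ MvPolynomial

namespace Pool.Agent.Q190.TT

open Pool.Agent.Q35.TT
open Pool.Agent.Q224.TT.Loc (dsc_tay bq1)

section lin

variable {K : Type} [Field K]

theorem tay_smul (e : K) (a : Fin 5 → K) (s : K) (i : Fin 4) :
    tay (fun k => e * a k) s i = e * tay a s i := by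
  fin_cases i <;> simp [tay] <;> ring

theorem bq_smul (e : K) (a : Fin 5 → K) (x : Fin 2 → K) : bq (fun k => e * a k) x = e * bq a x := by
  unfold bq
  ring

theorem bd_smul (e : K) (a : Fin 5 → K) (x : Fin 2 → K) (k : Fin 2) :
    bd (fun k => e * a k) x k = e * bd a x k := by
  fin_cases k <;> simp [bd] <;> ring

/-- the torsion condition for the twist by `e` -/
def TP (a : Fin 5 → K) (e s w : K) (n : ℕ) : Prop :=
  TorP (e * tay a s 1) (e ^ 2 * (tay a s 0 * tay a s 2 - 4 * bq a ![1, s] * tay a s 3))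
    (e ^ 3 * (tay a s 0 ^ 2 * tay a s 3 + bq a ![1, s] * tay a s 2 ^ 2 -
      4 * bq a ![1, s] * tay a s 1 * tay a s 3))
    (e * (tay a s 0 ^ 2 / (4 * bq a ![1, s]) - tay a s 1))
    (e ^ 2 * (tay a s 0 * (tay a s 0 ^ 2 / (4 * bq a ![1, s]) - tay a s 1) +
      2 * bq a ![1, s] * tay a s 2) / (2 * w)) n

theorem tor_iff [CharZero K] (a : Fin 5 → K) (e s w : K) (n : ℕ) (he : e ≠ 0) :
    Tor (fun k => e * a k) s w n ↔ w ≠ 0 ∧ w ^ 2 = e * bq a ![1, s] ∧
      dc (a 0) (a 1) (a 2) (a 3) (a 4) ≠ 0 ∧ TP a e s w n := by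
  unfold Tor
  rw [bq_smul]
  constructor
  · rintro ⟨h1, h2, h3, h4⟩
    refine ⟨h1, h2, ?_, ?_⟩
    · intro h
      apply h3
      show dc (e * a 0) (e * a 1) (e * a 2) (e * a 3) (e * a 4) = 0
      rw [dc_smul, h, mul_zero]
    · have hg : bq a ![1, s] ≠ 0 := by
        intro h
        rw [h, mul_zero] at h2
        exact h1 (pow_eq_zero_iff two_ne_zero |>.1 h2)
      simp only [tay_smul] at h4
      have e1 : rb w (e * tay a s 0) (e * tay a s 2) (e * tay a s 3) =
          e ^ 2 * (tay a s 0 * tay a s 2 - 4 * bq a ![1, s] * tay a s 3) := by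
        unfold rb
        rw [h2]
        ring
      have e2 : rc w (e * tay a s 0) (e * tay a s 1) (e * tay a s 2) (e * tay a s 3) =
          e ^ 3 * (tay a s 0 ^ 2 * tay a s 3 + bq a ![1, s] * tay a s 2 ^ 2 -
            4 * bq a ![1, s] * tay a s 1 * tay a s 3) := by
        unfold rc
        rw [h2]
        ring
      have e3 : xs w (e * tay a s 0) (e * tay a s 1) =
          e * (tay a s 0 ^ 2 / (4 * bq a ![1, s]) - tay a s 1) := by
        unfold xs
        rw [h2]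
        field_simp
      have e4 : ys w (e * tay a s 0) (e * tay a s 1) (e * tay a s 2) =
          e ^ 2 * (tay a s 0 * (tay a s 0 ^ 2 / (4 * bq a ![1, s]) - tay a s 1) +
            2 * bq a ![1, s] * tay a s 2) / (2 * w) := by
        unfold ys
        rw [e3, h2]
        ring
      rw [e1, e2, e3, e4] at h4
      exact h4
  · rintro ⟨h1, h2, h3, h4⟩
    refine ⟨h1, h2, ?_, ?_⟩
    · show dc (e * a 0) (e * a 1) (e * a 2) (e * a 3) (e * a 4) ≠ 0
      rw [dc_smul]
      exact mul_ne_zero (pow_ne_zero _ he) h3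
    · have hg : bq a ![1, s] ≠ 0 := by
        intro h
        rw [h, mul_zero] at h2
        exact h1 (pow_eq_zero_iff two_ne_zero |>.1 h2)
      simp only [tay_smul]
      have e1 : rb w (e * tay a s 0) (e * tay a s 2) (e * tay a s 3) =
          e ^ 2 * (tay a s 0 * tay a s 2 - 4 * bq a ![1, s] * tay a s 3) := by
        unfold rb
        rw [h2]
        ring
      have e2 : rc w (e * tay a s 0) (e * tay a s 1) (e * tay a s 2) (e * tay a s 3) =
          e ^ 3 * (tay a s 0 ^ 2 * tay a s 3 + bq a ![1, s] * tay a s 2 ^ 2 -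
            4 * bq a ![1, s] * tay a s 1 * tay a s 3) := by
        unfold rc
        rw [h2]
        ring
      have e3 : xs w (e * tay a s 0) (e * tay a s 1) =
          e * (tay a s 0 ^ 2 / (4 * bq a ![1, s]) - tay a s 1) := by
        unfold xs
        rw [h2]
        field_simp
      have e4 : ys w (e * tay a s 0) (e * tay a s 1) (e * tay a s 2) =
          e ^ 2 * (tay a s 0 * (tay a s 0 ^ 2 / (4 * bq a ![1, s]) - tay a s 1) +
            2 * bq a ![1, s] * tay a s 2) / (2 * w) := by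
        unfold ys
        rw [e3, h2]
        ring
      rw [e1, e2, e3, e4]
      exact h4

/-- the discriminant of the twisted curve -/
theorem dsc_TP (a : Fin 5 → K) (e s : K) :
    dsc (e * tay a s 1) (e ^ 2 * (tay a s 0 * tay a s 2 - 4 * bq a ![1, s] * tay a s 3))
      (e ^ 3 * (tay a s 0 ^ 2 * tay a s 3 + bq a ![1, s] * tay a s 2 ^ 2 -
        4 * bq a ![1, s] * tay a s 1 * tay a s 3)) =
      e ^ 6 * dc (a 0) (a 1) (a 2) (a 3) (a 4) := by
  have e0 : a 0 + s * a 1 + s ^ 2 * a 2 + s ^ 3 * a 3 + s ^ 4 * a 4 = bq a ![1, s] := by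
    rw [bq1]
    ring
  have e1 : a 1 + 2 * s * a 2 + 3 * s ^ 2 * a 3 + 4 * s ^ 3 * a 4 = tay a s 0 := by
    rw [Pool.Agent.Q224.TT.Loc.tay0]
    ring
  have e2 : a 2 + 3 * s * a 3 + 6 * s ^ 2 * a 4 = tay a s 1 := by
    rw [Pool.Agent.Q224.TT.Loc.tay1]
    ring
  have e3 : a 3 + 4 * s * a 4 = tay a s 2 := by
    rw [Pool.Agent.Q224.TT.Loc.tay2]
    ring
  rw [← dc_shift s (a 0) (a 1) (a 2) (a 3) (a 4), e0, e1, e2, e3,
    ← Pool.Agent.Q224.TT.Loc.tay3 a s]
  unfold dc dsc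
  ring

/-- change of the twist -/
theorem TP_move (h : S_TRN) [CharZero K] (a : Fin 5 → K) (e e' s w w' : K) (n : ℕ) (he : e ≠ 0)
    (he' : e' ≠ 0) (hw : w ≠ 0) (hw' : w' ≠ 0) (h2 : w ^ 2 = e * bq a ![1, s])
    (h2' : w' ^ 2 = e' * bq a ![1, s]) (hd : dc (a 0) (a 1) (a 2) (a 3) (a 4) ≠ 0)
    (hT : TP a e s w n) : TP a e' s w' n := by
  have hu : w / w' ≠ 0 := div_ne_zero hw hw'
  have hdsc : e ^ 6 * dc (a 0) (a 1) (a 2) (a 3) (a 4) ≠ 0 := mul_ne_zero (pow_ne_zero _ he) hd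
  rw [← dsc_TP a e s] at hdsc
  have h3 := h K _ _ _ _ _ (w / w') 0 n hu hdsc hT
  have hg : bq a ![1, s] ≠ 0 := by
    intro h
    rw [h, mul_zero] at h2
    exact hw (pow_eq_zero_iff two_ne_zero |>.1 h2)
  have hr : (w / w') ^ 2 = e / e' := by
    rw [div_pow, h2, h2']
    field_simp
  have hr4 : (w / w') ^ 4 = (e / e') ^ 2 := by
    rw [← hr]
    ring
  have hr6 : (w / w') ^ 6 = (e / e') ^ 3 := by
    rw [← hr]
    ring
  rw [hr, hr4, hr6] at h3
  have e1 : (e * tay a s 1 + 3 * 0) / (e / e') = e' * tay a s 1 := by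
    field_simp
    ring
  have e2 : (e ^ 2 * (tay a s 0 * tay a s 2 - 4 * bq a ![1, s] * tay a s 3) +
      2 * 0 * (e * tay a s 1) + 3 * 0 ^ 2) / (e / e') ^ 2 =
      e' ^ 2 * (tay a s 0 * tay a s 2 - 4 * bq a ![1, s] * tay a s 3) := by
    field_simp
    ring
  have e3 : (e ^ 3 * (tay a s 0 ^ 2 * tay a s 3 + bq a ![1, s] * tay a s 2 ^ 2 -
        4 * bq a ![1, s] * tay a s 1 * tay a s 3) +
      0 * (e ^ 2 * (tay a s 0 * tay a s 2 - 4 * bq a ![1, s] * tay a s 3)) +
      0 ^ 2 * (e * tay a s 1) + 0 ^ 3) / (e / e') ^ 3 =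
      e' ^ 3 * (tay a s 0 ^ 2 * tay a s 3 + bq a ![1, s] * tay a s 2 ^ 2 -
        4 * bq a ![1, s] * tay a s 1 * tay a s 3) := by
    field_simp
    ring
  have e4 : (e * (tay a s 0 ^ 2 / (4 * bq a ![1, s]) - tay a s 1) - 0) / (e / e') =
      e' * (tay a s 0 ^ 2 / (4 * bq a ![1, s]) - tay a s 1) := by
    field_simp
    ring
  have e5 : e ^ 2 * (tay a s 0 * (tay a s 0 ^ 2 / (4 * bq a ![1, s]) - tay a s 1) +
      2 * bq a ![1, s] * tay a s 2) / (2 * w) / (w / w') ^ 3 =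
      e' ^ 2 * (tay a s 0 * (tay a s 0 ^ 2 / (4 * bq a ![1, s]) - tay a s 1) +
      2 * bq a ![1, s] * tay a s 2) / (2 * w') := by
    obtain ⟨Y, hY⟩ : ∃ Y : K, Y = tay a s 0 * (tay a s 0 ^ 2 / (4 * bq a ![1, s]) - tay a s 1) +
      2 * bq a ![1, s] * tay a s 2 := ⟨_, rfl⟩
    rw [← hY, div_pow]
    have h4 : w ^ 4 = e ^ 2 * bq a ![1, s] ^ 2 := by
      rw [show w ^ 4 = (w ^ 2) ^ 2 by ring, h2]
      ring
    have h4' : w' ^ 4 = e' ^ 2 * bq a ![1, s] ^ 2 := by
      rw [show w' ^ 4 = (w' ^ 2) ^ 2 by ring, h2']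
      ring
    have h5 : e ^ 2 * Y / (2 * w) / (w ^ 3 / w' ^ 3) = e ^ 2 * Y * w' ^ 3 / (2 * w ^ 4) := by
      field_simp
    have h6 : e' ^ 2 * Y / (2 * w') = e' ^ 2 * Y * w' ^ 3 / (2 * w' ^ 4) := by
      field_simp
    rw [h5, h6, h4, h4']
    field_simp
  rw [e1, e2, e3, e4, e5] at h3
  exact h3

end lin

/-- **TWS** -/
theorem tws (h : S_TRN) : S_TWS := by
  intro K _ _ a e s w n he
  unfold TorT
  by_cases hg : bq a ![1, s] = 0
  · constructor
    · rintro ⟨h1, h2, -⟩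
      rw [bq_smul, hg, mul_zero] at h2
      exact absurd (pow_eq_zero_iff two_ne_zero |>.1 h2) h1
    · rintro ⟨h1, h2, -⟩
      rw [hg, mul_zero] at h2
      exact absurd (pow_eq_zero_iff two_ne_zero |>.1 h2) h1
  · rw [tor_iff a e s w n he, tor_iff a (bq a ![1, s]) s (bq a ![1, s]) n hg]
    constructor
    · rintro ⟨h1, h2, h3, h4⟩
      exact ⟨h1, h2, hg, sq _, h3, TP_move h a e _ s w _ n he hg h1 hg h2 (sq _) h3 h4⟩
    · rintro ⟨h1, h2, -, -, h3, h4⟩
      exact ⟨h1, h2, h3, TP_move h a _ e s _ w n hg he hg h1 (sq _) h2 h3 h4⟩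

section inv

variable {K : Type} [Field K]

theorem lc_smul {n : ℕ} (f : MvPolynomial (Fin n) K) (e : K) (he : e ≠ 0) (x : Fin n → Fin 2 → K)
    (i : Fin n) : lc (C e * f) x i = fun k => e * lc f x i k := by
  funext k
  unfold lc
  have hs : (C e * f).support = f.support := by
    ext m
    rw [mem_support_iff, mem_support_iff, coeff_C_mul]
    simp [he]
  rw [hs, Finset.mul_sum]
  refine Finset.sum_congr rfl fun m _ => ?_
  rw [coeff_C_mul]
  ring

theorem torT_smul (h : S_TWS) [CharZero K] (a : Fin 5 → K) (e s : K) (n : ℕ) (he : e ≠ 0) :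
    TorT (fun k => e * a k) s n ↔ TorT a s n := by
  by_cases hg : bq a ![1, s] = 0
  · constructor
    · rintro ⟨h1, -⟩
      rw [bq_smul, hg, mul_zero] at h1
      exact absurd rfl h1
    · rintro ⟨h1, -⟩
      exact absurd hg h1
  · have h1 := h K a (e ^ 2 * bq a ![1, s]) s (e * bq a ![1, s]) n
      (mul_ne_zero (pow_ne_zero 2 he) hg)
    unfold TorT
    rw [bq_smul]
    have h2 : (fun k => e * bq a ![1, s] * (e * a k)) = fun k => e ^ 2 * bq a ![1, s] * a k := by
      funext k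
      ring
    rw [h2, h1]
    constructor
    · rintro ⟨-, -, h3⟩
      exact h3
    · intro h3
      exact ⟨mul_ne_zero he hg, by ring, h3⟩

theorem spec_smul {n : ℕ} (f : MvPolynomial (Fin n) K) (e : K) (he : e ≠ 0) (z : Fin n → K)
    (J : Finset (Fin n)) : SpecN (C e * f) z J ↔ SpecN f z J := by
  unfold SpecN
  refine forall_congr' fun k => imp_congr Iff.rfl (exists_congr fun c => forall_congr' fun y =>
    imp_congr Iff.rfl ?_)
  rw [pderiv_C_mul, map_mul, map_mul, eval_C]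
  constructor
  · intro h1
    apply mul_left_cancel₀ he
    rw [h1]
    ring
  · intro h1
    rw [h1]
    ring

end inv

/-- **INV** -/
theorem inv (h : S_TWS) : S_INV := by
  intro K _ _ n f hf e he
  refine ⟨fun j => (degreeOf_C_mul_le f j e).trans (hf j), fun hs x hx => ?_, fun hF J hJ hJ' => ?_,
    fun z => ⟨fun i => ?_, fun J => spec_smul f e he z J⟩⟩
  · obtain ⟨i, k, hik⟩ := hs x hx
    refine ⟨i, k, ?_⟩
    have he' : algebraMap K (AlgebraicClosure K) e ≠ 0 := by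
      rw [Ne, map_eq_zero]
      exact he
    rw [map_mul, map_C, lc_smul _ _ he', bd_smul]
    exact mul_ne_zero he' hik
  · refine (hF J hJ hJ').subset ?_
    rintro P ⟨z, hz, hz2, hP⟩
    refine ⟨z, ?_, (spec_smul f e he z J).1 hz2, hP⟩
    intro h0
    apply hz
    rw [map_mul, h0, mul_zero]
  · unfold TorN
    rw [lc_smul f e he]
    exact exists_congr fun N => and_congr Iff.rfl (torT_smul h _ e _ N he)

end Pool.Agent.Q190.TT
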