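import Pool.Agent.Q35.TT.Stm3
import Pool.Agent.Q224.TT.Loc
import Pool.Agent.Q190.TT.Tws

/-!
# Project TT (helper35), jobs LOT and LGT: the local inequalities for the twisted condition
-/

set_option autoImplicit false

open Pool.Agent.Y720.MZ

namespace Pool.Agent.Q190.TT.Lot

open Pool.Agent.Q35.TT
open Pool.Agent.Q224.TT.Loc (II JJ tay0 tay1 tay2 tay3 bq1 bd0 bd1 dsc_scale id0 vnat vnat' mul2 vsub
  vsub' vII vJJ vII' vJJ' vquad vquad')

theorem key (h : S_TRN) {K : Type} [Field K] [CharZero K] (a : Fin 5 → K) (m s : K) (n : ℕ)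
    (hm : m ≠ 0) (ht : TorT a s n) :
    bq a ![1, s] ≠ 0 ∧ ∃ y', dsc 0 (-II a / (3 * m ^ 8)) (-JJ a / (27 * m ^ 12)) ≠ 0 ∧
      TorP (bq a ![1, s] * 0) (bq a ![1, s] ^ 2 * (-II a / (3 * m ^ 8)))
        (bq a ![1, s] ^ 3 * (-JJ a / (27 * m ^ 12)))
        ((3 * tay a s 0 ^ 2 - 8 * bq a ![1, s] * tay a s 1) / (12 * m ^ 4)) y' n := by
  have hg : bq a ![1, s] ≠ 0 := ht.1
  refine ⟨hg, ?_⟩
  unfold TorT at ht
  rw [tor_iff a _ s _ n hg] at ht
  obtain ⟨-, -, hdc, htp⟩ := ht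
  unfold TP at htp
  have hdsc : bq a ![1, s] ^ 6 * dc (a 0) (a 1) (a 2) (a 3) (a 4) ≠ 0 :=
    mul_ne_zero (pow_ne_zero _ hg) hdc
  have hdsc' := hdsc
  rw [← dsc_TP a _ s] at hdsc
  have hu : m ^ 2 ≠ 0 := pow_ne_zero 2 hm
  have h1 := h K _ _ _ _ _ (m ^ 2) (-(bq a ![1, s] * tay a s 1) / 3) n hu hdsc htp
  have h2 := dsc_scale (bq a ![1, s] * tay a s 1)
    (bq a ![1, s] ^ 2 * (tay a s 0 * tay a s 2 - 4 * bq a ![1, s] * tay a s 3))
    (bq a ![1, s] ^ 3 * (tay a s 0 ^ 2 * tay a s 3 + bq a ![1, s] * tay a s 2 ^ 2 -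
      4 * bq a ![1, s] * tay a s 1 * tay a s 3)) (-(bq a ![1, s] * tay a s 1) / 3) (m ^ 2) hu
  have e1 : (bq a ![1, s] * tay a s 1 + 3 * (-(bq a ![1, s] * tay a s 1) / 3)) / (m ^ 2) ^ 2 =
      bq a ![1, s] * 0 := by
    field_simp
    ring
  have i2 : -II a = 3 * (tay a s 0 * tay a s 2 - 4 * bq a ![1, s] * tay a s 3) - tay a s 1 ^ 2 := by
    unfold II
    rw [bq1, tay0, tay1, tay2, tay3]
    ring
  have i3 : -JJ a = 27 * (tay a s 0 ^ 2 * tay a s 3 + bq a ![1, s] * tay a s 2 ^ 2 -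
      4 * bq a ![1, s] * tay a s 1 * tay a s 3) -
      9 * tay a s 1 * (tay a s 0 * tay a s 2 - 4 * bq a ![1, s] * tay a s 3) +
      2 * tay a s 1 ^ 3 := by
    unfold JJ
    rw [bq1, tay0, tay1, tay2, tay3]
    ring
  have e2 : (bq a ![1, s] ^ 2 * (tay a s 0 * tay a s 2 - 4 * bq a ![1, s] * tay a s 3) +
      2 * (-(bq a ![1, s] * tay a s 1) / 3) * (bq a ![1, s] * tay a s 1) +
      3 * (-(bq a ![1, s] * tay a s 1) / 3) ^ 2) / (m ^ 2) ^ 4 =
      bq a ![1, s] ^ 2 * (-II a / (3 * m ^ 8)) := by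
    rw [i2]
    field_simp
    ring
  have e3 : (bq a ![1, s] ^ 3 * (tay a s 0 ^ 2 * tay a s 3 + bq a ![1, s] * tay a s 2 ^ 2 -
      4 * bq a ![1, s] * tay a s 1 * tay a s 3) +
      -(bq a ![1, s] * tay a s 1) / 3 *
        (bq a ![1, s] ^ 2 * (tay a s 0 * tay a s 2 - 4 * bq a ![1, s] * tay a s 3)) +
      (-(bq a ![1, s] * tay a s 1) / 3) ^ 2 * (bq a ![1, s] * tay a s 1) +
      (-(bq a ![1, s] * tay a s 1) / 3) ^ 3) / (m ^ 2) ^ 6 =
      bq a ![1, s] ^ 3 * (-JJ a / (27 * m ^ 12)) := by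
    rw [i3]
    field_simp
    ring
  have e4 : (bq a ![1, s] * (tay a s 0 ^ 2 / (4 * bq a ![1, s]) - tay a s 1) -
      -(bq a ![1, s] * tay a s 1) / 3) / (m ^ 2) ^ 2 =
      (3 * tay a s 0 ^ 2 - 8 * bq a ![1, s] * tay a s 1) / (12 * m ^ 4) := by
    field_simp
    ring
  rw [e1, e2, e3, e4] at h1
  rw [e1, e2, e3] at h2
  refine ⟨_, ?_, h1⟩
  intro h0
  rw [dsc_TP] at h2
  have h3 : dsc (bq a ![1, s] * 0) (bq a ![1, s] ^ 2 * (-II a / (3 * m ^ 8)))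
        (bq a ![1, s] ^ 3 * (-JJ a / (27 * m ^ 12))) =
      bq a ![1, s] ^ 6 * dsc 0 (-II a / (3 * m ^ 8)) (-JJ a / (27 * m ^ 12)) := by
    unfold dsc
    ring
  rw [h3, h0, mul_zero] at h2
  exact (div_ne_zero hdsc' (pow_ne_zero _ hu)) h2.symm

/-- **LOT** -/
theorem lot (h : S_TRN) : S_LOT := by
  intro K _ _ v A A' B κ hA hB hA' h16 h137 _ _ hLB a m hm ha s n hn hT
  have hv := v.nonneg
  obtain ⟨hg, y', hd, ht⟩ := key h a m s n hm hT
  obtain ⟨g, hgd⟩ : ∃ g : K, g = bq a ![1, s] := ⟨_, rfl⟩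
  rw [← hgd] at hg ht
  have hM : 0 < v m := v.pos hm
  have hW : 0 < v g := v.pos hg
  have h3K : (3 : K) ≠ 0 := three_ne_zero
  have h3 : 0 < v 3 := v.pos h3K
  have h12K : (12 : K) ≠ 0 := by norm_num
  have h12 : v 12 ≤ 12 := by exact_mod_cast vnat v 12
  have h8 : v 8 ≤ 8 := by exact_mod_cast vnat v 8
  have h6 : v 6 ≤ 6 := by exact_mod_cast vnat v 6
  have h3' : v 3 ≤ 3 := by exact_mod_cast vnat v 3
  have hb : v (-II a / (3 * m ^ 8)) ≤ A' := by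
    rw [map_div₀, v.map_neg, map_mul, map_pow, div_le_iff₀ (by positivity)]
    refine (vII v a _ ha).trans ?_
    calc 16 * (A * v m ^ 4) ^ 2 = (16 * A ^ 2) * v m ^ 8 := by ring
      _ ≤ (A' * v 3) * v m ^ 8 := mul_le_mul_of_nonneg_right h16 (by positivity)
      _ = A' * (v 3 * v m ^ 8) := by ring
  have hc : v (-JJ a / (27 * m ^ 12)) ≤ A' := by
    have h27 : v 27 = v 3 ^ 3 := by
      rw [← map_pow]
      norm_num
    rw [map_div₀, v.map_neg, map_mul, map_pow, h27, div_le_iff₀ (by positivity)]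
    refine (vJJ v a _ ha).trans ?_
    calc 137 * (A * v m ^ 4) ^ 3 = (137 * A ^ 3) * v m ^ 12 := by ring
      _ ≤ (A' * v 3 ^ 3) * v m ^ 12 := mul_le_mul_of_nonneg_right h137 (by positivity)
      _ = A' * (v 3 ^ 3 * v m ^ 12) := by ring
  have hx := hLB 0 _ _ _ y' g (by rw [map_zero]; exact hA') hb hc hd hg n hn ht
  set H : K := 3 * tay a s 0 ^ 2 - 8 * g * tay a s 1 with hH
  have hN : (1 : ℝ) ≤ (n : ℝ) ^ κ := one_le_pow₀ (by exact_mod_cast Nat.one_le_iff_ne_zero.2 hn)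
  have hHle : v H ≤ 12 * B * (n : ℝ) ^ κ * v g * v m ^ 4 := by
    rw [map_div₀, map_mul, map_pow v m, div_le_iff₀ (by
      have := v.pos h12K
      positivity)] at hx
    refine hx.trans ?_
    calc B * (n : ℝ) ^ κ * v g * (v 12 * v m ^ 4) = v 12 * (B * (n : ℝ) ^ κ * (v g * v m ^ 4)) := by ring
      _ ≤ 12 * (B * (n : ℝ) ^ κ * (v g * v m ^ 4)) := mul_le_mul_of_nonneg_right h12 (by positivity)
      _ = 12 * B * (n : ℝ) ^ κ * v g * v m ^ 4 := by ring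
  set S : ℝ := max 1 (v s) with hS
  have hS1 : 1 ≤ S := le_max_left _ _
  have hsS : v s ≤ S := le_max_right _ _
  have hS2 : 1 ≤ S ^ 2 := one_le_pow₀ hS1
  have hq2 : v (tay a s 1) ≤ 10 * (A * v m ^ 4) * S ^ 2 := by
    rw [tay1]
    have := vquad v (A * v m ^ 4) S hS1 s (a 2) (a 3) (a 4) 3 6 hsS (ha 2) (ha 3) (ha 4) 3 6 h3' h6
    linarith
  have he : v (6 * a 0 + 3 * a 1 * s + a 2 * s ^ 2) ≤ 10 * (A * v m ^ 4) * S ^ 2 := by
    have e1 : v (6 * a 0) ≤ 6 * (A * v m ^ 4) := by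
      rw [map_mul]
      exact mul2 (hv _) (hv _) h6 (ha 0)
    have e2 : v (3 * a 1 * s) ≤ 3 * (A * v m ^ 4) * S := by
      rw [map_mul, map_mul]
      exact mul2 (mul_nonneg (hv _) (hv _)) (hv _) (mul2 (hv _) (hv _) h3' (ha 1)) hsS
    have e3 : v (a 2 * s ^ 2) ≤ (A * v m ^ 4) * S ^ 2 := by
      rw [map_mul, map_pow]
      exact mul2 (hv _) (pow_nonneg (hv _) _) (ha 2) (pow_le_pow_left₀ (hv _) hsS 2)
    have e4 := v.add_le (6 * a 0 + 3 * a 1 * s) (a 2 * s ^ 2)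
    have e5 := v.add_le (6 * a 0) (3 * a 1 * s)
    have hP : 0 ≤ A * v m ^ 4 := by positivity
    have hSS : S ≤ S ^ 2 := by nlinarith
    have e6 : A * v m ^ 4 ≤ A * v m ^ 4 * S ^ 2 := le_mul_of_one_le_right hP hS2
    have e7 : 3 * (A * v m ^ 4) * S ≤ 3 * (A * v m ^ 4) * S ^ 2 := mul_le_mul_of_nonneg_left hSS (by positivity)
    linarith
  have hT0 : 0 ≤ A * v m ^ 4 * v g * S ^ 2 := by positivity
  have hT1 : 0 ≤ 12 * B * (n : ℝ) ^ κ * v g * v m ^ 4 := by positivity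
  have f1 : A * v m ^ 4 * v g * S ^ 2 ≤ (n : ℝ) ^ κ * (A * v m ^ 4 * v g * S ^ 2) :=
    le_mul_of_one_le_left hT0 hN
  have f2 : 12 * B * (n : ℝ) ^ κ * v g * v m ^ 4 ≤ 12 * B * (n : ℝ) ^ κ * v g * v m ^ 4 * S ^ 2 :=
    le_mul_of_one_le_right hT1 hS2
  have g8 : ∀ q : K, v q ≤ 10 * (A * v m ^ 4) * S ^ 2 → v (8 * g * q) ≤
      80 * (A * v m ^ 4 * v g * S ^ 2) := by
    intro q hq
    rw [map_mul, map_mul]
    have := mul2 (mul_nonneg (hv _) (hv _)) (hv _) (mul_le_mul_of_nonneg_right h8 hW.le) hq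
    linarith
  rw [← hgd]
  rw [Fin.forall_fin_two]
  constructor
  · have e1 : v 3 * v (bd a ![1, s] 0) ^ 2 = v (8 * g * (6 * a 0 + 3 * a 1 * s + a 2 * s ^ 2) + s ^ 2 * H) := by
      rw [← map_pow, ← map_mul, id0, ← hgd]
    rw [e1]
    refine (v.add_le _ _).trans ?_
    have e2 : v (s ^ 2 * H) ≤ S ^ 2 * (12 * B * (n : ℝ) ^ κ * v g * v m ^ 4) := by
      rw [map_mul, map_pow]
      exact mul2 (pow_nonneg (hv _) _) (hv _) (pow_le_pow_left₀ (hv _) hsS 2) hHle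
    have e3 := g8 _ he
    nlinarith
  · have e1 : v 3 * v (bd a ![1, s] 1) ^ 2 = v (H + 8 * g * tay a s 1) := by
      rw [← map_pow, ← map_mul, bd1, hH]
      congr 1
      ring
    rw [e1]
    refine (v.add_le _ _).trans ?_
    have e3 := g8 _ hq2
    nlinarith

/-- **LGT** -/
theorem lgt (h : S_TRN) : S_LGT := by
  intro K _ _ v hna h2 h3 hLB a m hm ha s n hn hT
  have hv := v.nonneg
  obtain ⟨hg, y', hd, ht⟩ := key h a m s n hm hT
  obtain ⟨g, hgd⟩ : ∃ g : K, g = bq a ![1, s] := ⟨_, rfl⟩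
  rw [← hgd] at hg ht
  have hM : 0 < v m := v.pos hm
  have hW : 0 < v g := v.pos hg
  have h12 : v 12 = 1 := by
    rw [show (12 : K) = 2 ^ 2 * 3 by norm_num, map_mul, map_pow, h2, h3]
    norm_num
  have h8 : v 8 ≤ 1 := by exact_mod_cast vnat' v hna 8
  have h6 : v 6 ≤ 1 := by exact_mod_cast vnat' v hna 6
  have hb : v (-II a / (3 * m ^ 8)) ≤ 1 := by
    rw [map_div₀, v.map_neg, map_mul, map_pow, h3, one_mul, div_le_iff₀ (by positivity), one_mul]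
    refine (vII' v hna a _ ha).trans (le_of_eq ?_)
    ring
  have hc : v (-JJ a / (27 * m ^ 12)) ≤ 1 := by
    have h27 : v 27 = 1 := by
      rw [show (27 : K) = 3 ^ 3 by norm_num, map_pow, h3, one_pow]
    rw [map_div₀, v.map_neg, map_mul, map_pow, h27, one_mul, div_le_iff₀ (by positivity), one_mul]
    refine (vJJ' v hna a _ ha).trans (le_of_eq ?_)
    ring
  have hx := hLB 0 _ _ _ y' g (by rw [map_zero]; exact zero_le_one) hb hc hd hg n hn ht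
  rw [pow_zero, mul_one, one_mul] at hx
  set H : K := 3 * tay a s 0 ^ 2 - 8 * g * tay a s 1 with hH
  have hHle : v H ≤ v g * v m ^ 4 := by
    rw [map_div₀, map_mul, map_pow v m, h12, one_mul, div_le_iff₀ (by positivity)] at hx
    exact hx
  set S : ℝ := max 1 (v s) with hS
  have hS1 : 1 ≤ S := le_max_left _ _
  have hsS : v s ≤ S := le_max_right _ _
  have hS2 : 1 ≤ S ^ 2 := one_le_pow₀ hS1
  have hSS : S ≤ S ^ 2 := by nlinarith
  have hP : 0 ≤ v m ^ 4 := by positivity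
  have hq2 : v (tay a s 1) ≤ v m ^ 4 * S ^ 2 := by
    rw [tay1]
    exact vquad' v hna (v m ^ 4) S hS1 s (a 2) (a 3) (a 4) 3 6 hsS (ha 2) (ha 3) (ha 4) h3.le h6
  have he : v (6 * a 0 + 3 * a 1 * s + a 2 * s ^ 2) ≤ v m ^ 4 * S ^ 2 := by
    have e1 : v (6 * a 0) ≤ v m ^ 4 * S ^ 2 := by
      rw [map_mul]
      refine (mul2 (hv _) (hv _) h6 (ha 0)).trans ?_
      rw [one_mul]
      exact le_mul_of_one_le_right hP hS2
    have e2 : v (3 * a 1 * s) ≤ v m ^ 4 * S ^ 2 := by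
      rw [map_mul, map_mul, h3, one_mul]
      exact mul2 (hv _) (hv _) (ha 1) (hsS.trans hSS)
    have e3 : v (a 2 * s ^ 2) ≤ v m ^ 4 * S ^ 2 := by
      rw [map_mul, map_pow]
      exact mul2 (hv _) (pow_nonneg (hv _) _) (ha 2) (pow_le_pow_left₀ (hv _) hsS 2)
    exact (hna _ _).trans (max_le ((hna _ _).trans (max_le e1 e2)) e3)
  have hHle' : v H ≤ v g * S ^ 2 * v m ^ 4 := by
    refine hHle.trans ?_
    rw [mul_right_comm]
    exact le_mul_of_one_le_right (by positivity) hS2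
  have g8 : ∀ q : K, v q ≤ v m ^ 4 * S ^ 2 → v (8 * g * q) ≤ v g * S ^ 2 * v m ^ 4 := by
    intro q hq
    rw [map_mul, map_mul]
    have := mul2 (mul_nonneg (hv 8) (hv g)) (hv q) (mul_le_mul_of_nonneg_right h8 hW.le) hq
    rw [one_mul] at this
    refine this.trans (le_of_eq ?_)
    ring
  rw [← hgd]
  rw [Fin.forall_fin_two]
  constructor
  · have e1 : v (bd a ![1, s] 0) ^ 2 = v (8 * g * (6 * a 0 + 3 * a 1 * s + a 2 * s ^ 2) + s ^ 2 * H) := by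
      rw [hH, hgd, ← id0, map_mul, map_pow, h3, one_mul]
    rw [e1]
    refine (hna _ _).trans (max_le (g8 _ he) ?_)
    rw [map_mul, map_pow]
    refine (mul2 (pow_nonneg (hv _) _) (hv _) (pow_le_pow_left₀ (hv _) hsS 2) hHle).trans (le_of_eq ?_)
    ring
  · have e1 : v (bd a ![1, s] 1) ^ 2 = v (H + 8 * g * tay a s 1) := by
      rw [bd1, ← map_pow, hH, sub_add_cancel, map_mul, h3, one_mul]
    rw [e1]
    exact (hna _ _).trans (max_le hHle' (g8 _ hq2))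

end Pool.Agent.Q190.TT.Lot
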